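import Pool.Agent.W695.KH.WrapC

set_option autoImplicit false

namespace Pool.Agent.W695.KH

open MeasureTheory Set Filter Topology
open scoped ENNReal InnerProductSpace Matrix
open Pool.Agent.H212R2.KLS (mu)
open Pool.Agent.H888R2.KC Pool.Agent.H888R2.KT

/-- Poincare inequality for bounded functions and conjugation invariant densities -/
theorem conj_strong : ∃ C : ℝ, 0 < C ∧
    ∀ {𝕜 : Type} [RCLike 𝕜] {N q : ℕ} {ι : Type} [Fintype ι]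
    {Φ : EuclideanSpace ℝ ι →ₗ[ℝ] Matrix (Fin N) (Fin N) 𝕜}, Fr Φ → 3 ≤ N → 1 ≤ q →
    ∀ ρ : EuclideanSpace ℝ (Fin q × ι) → ℝ, DT Φ ρ → mu ρ univ = 1 → ∀ s : ℝ, 0 < s →
    (∀ θ : EuclideanSpace ℝ (Fin q × ι), ∫⁻ x, ENNReal.ofReal (⟪θ, x⟫_ℝ ^ 2) ∂(mu ρ) ≤
      ENNReal.ofReal (s * ‖θ‖ ^ 2)) →
    ∀ f : EuclideanSpace ℝ (Fin q × ι) → ℝ, ContDiff ℝ 1 f → (∀ x, |f x| ≤ 1) →
    ENNReal.ofReal (∫ x, (f x - ∫ y, f y ∂(mu ρ)) ^ 2 ∂(mu ρ)) ≤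
      ENNReal.ofReal (C * ((q : ℝ) ^ 2) ^ 2 * s) *
        ∫⁻ x, ENNReal.ofReal (‖fderiv ℝ f x‖ ^ 2) ∂(mu ρ) := by
  obtain ⟨C, hC, h⟩ := mainq_centered
  refine ⟨C, hC, ?_⟩
  intro 𝕜 _ N q ι _ Φ hΦ hN hq ρ hρ h1 s hs hcov f hf hb
  have : IsProbabilityMeasure (mu ρ) := ⟨h1⟩
  have hm : AEStronglyMeasurable f (mu ρ) := hf.continuous.aestronglyMeasurable
  have hL : MemLp f 2 (mu ρ) := MemLp.of_bound hm 1 (Eventually.of_forall hb)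
  have h3 := h hΦ hN hq ρ hρ h1 s hs (fun θ => evar_le (mu ρ) _
    (by fun_prop : Continuous fun x : EuclideanSpace ℝ (Fin q × ι) => ⟪θ, x⟫_ℝ).aestronglyMeasurable
    _ (hcov θ)) f hf hL
  have e : C * ((q : ℝ) ^ 2) ^ 2 * s = C * (q : ℝ) ^ 4 * s := by ring
  rw [e]
  exact h3

end Pool.Agent.W695.KH
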