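import Pool.Agent.Results.MP_6d896a_gt.Exchangeable
import Pool.Agent.W695.KH.Wrap

/-!
# The weak Poincare inequality for exchangeable densities in the form used by `KH`
-/

set_option autoImplicit false

namespace Pool.Agent.W695.KH.Exch

open MeasureTheory Set
open scoped ENNReal InnerProductSpace
open Pool.Agent.H212R2.KLS (mu)

/-- the isometry `x ↦ x ∘ σ` -/
theorem exists_iso {n : ℕ} (σ : Equiv.Perm (Fin n)) :
    ∃ e : EuclideanSpace ℝ (Fin n) ≃ₗᵢ[ℝ] EuclideanSpace ℝ (Fin n),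
      ∀ z i, e z i = z (σ i) := by
  refine ⟨LinearIsometryEquiv.piLpCongrLeft 2 ℝ ℝ σ.symm, fun z i => ?_⟩
  simp [LinearIsometryEquiv.piLpCongrLeft_apply, Equiv.piCongrLeft'_apply]

/-- the weak Poincare inequality -/
theorem weak : ∃ C : ℝ, 0 < C ∧ ∀ n : ℕ, 1 ≤ n →
    ∀ ρ : EuclideanSpace ℝ (Fin n) → ℝ, (∀ x, 0 ≤ ρ x) → Measurable ρ →
    (∀ x y, ∀ t : ℝ, 0 < t → t < 1 → ρ x ^ (1 - t) * ρ y ^ t ≤ ρ ((1 - t) • x + t • y)) →
    (∀ σ : Equiv.Perm (Fin n), ∀ x y : EuclideanSpace ℝ (Fin n),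
      (∀ i, y i = x (σ i)) → ρ y = ρ x) →
    mu ρ univ = 1 → ∀ s : ℝ, 0 < s → (∀ θ : EuclideanSpace ℝ (Fin n),
      ∫⁻ x, ENNReal.ofReal (⟪θ, x⟫_ℝ ^ 2) ∂(mu ρ) ≤ ENNReal.ofReal (s * ‖θ‖ ^ 2)) →
    ∀ v : EuclideanSpace ℝ (Fin n) → ℝ, ContDiff ℝ 1 v → (∀ x, |v x| ≤ 1) →
    ENNReal.ofReal ((∫ x, (v x - ∫ y, v y ∂(mu ρ)) ^ 2 ∂(mu ρ)) ^ 2) ≤
      ENNReal.ofReal (C * s) * ∫⁻ x, ENNReal.ofReal (‖fderiv ℝ v x‖ ^ 2) ∂(mu ρ) := by
  obtain ⟨C, hC, H⟩ := Pool.Agent.Results.MP_6d896a_gt.Exchangeable.result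
  refine ⟨C, hC, ?_⟩
  intro n hn ρ hnn hmeas hlc hinv hprob s hs hcov v hv hvb
  have hp : IsProbabilityMeasure (mu ρ) := ⟨hprob⟩
  have hcv : Pool.Agent.Results.MP_6d896a_gt.Exchangeable.CovLe (mu ρ) s := by
    intro θ
    have hm : AEStronglyMeasurable (fun x : EuclideanSpace ℝ (Fin n) => ⟪θ, x⟫_ℝ) (mu ρ) :=
      (continuous_const.inner continuous_id).aestronglyMeasurable
    refine le_trans ?_ (hcov θ)
    rw [ProbabilityTheory.evariance_def' hm]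
    refine tsub_le_self.trans (le_of_eq ?_)
    refine lintegral_congr fun x => ?_
    rw [Real.enorm_eq_ofReal_abs, ← ENNReal.ofReal_pow (abs_nonneg _), sq_abs]
  have h1 := (H n hn ρ ⟨hnn, hmeas, hlc, hinv⟩ (mu ρ) rfl hp s hs hcv v hv).2 hvb
  rw [ProbabilityTheory.variance_eq_integral hv.continuous.measurable.aemeasurable] at h1
  exact h1

end Pool.Agent.W695.KH.Exch
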