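import Pool.Agent.W695.KH.Wrap

/-!
# The perimeter as an extended number; the final form of the main theorem
-/

set_option autoImplicit false

namespace Pool.Agent.W695.KH

open MeasureTheory Set Filter Topology
open scoped ENNReal InnerProductSpace Pointwise
open Pool.Agent.H212R2.KLS (mu)

variable {κ : Type} [Fintype κ]

/-- De Giorgi perimeter of `E` relative to `Ω` -/
noncomputable def per (E Ω : Set (Eu κ)) : ℝ≥0∞ :=
  ⨆ (X : Eu κ → Eu κ) (_ : ContDiff ℝ 1 X ∧ HasCompactSupport X ∧ tsupport X ⊆ Ω ∧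
    ∀ x, ‖X x‖ ≤ 1), ENNReal.ofReal (∫ x in E, dv X x)

theorem perLe_toReal (E Ω : Set (Eu κ)) (h : per E Ω ≠ ⊤) : PerLe Ω E (per E Ω).toReal := by
  intro X h1 h2 h3 h4
  have h5 : ENNReal.ofReal (∫ x in E, dv X x) ≤ per E Ω := by
    unfold per
    exact le_iSup₂_of_le X ⟨h1, h2, h3, h4⟩ le_rfl
  exact (ENNReal.ofReal_le_iff_le_toReal h).1 h5

theorem final (hm : S_main) (hpr : S_proj) : ∃ C : ℝ, 0 < C ∧ ∀ (κ : Type) [Fintype κ] [Nonempty κ]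
    (Ω : Set (Eu κ)),
    IsOpen Ω → Convex ℝ Ω → Bornology.IsBounded Ω → (0 : Eu κ) ∈ Ω → (∀ x ∈ Ω, -x ∈ Ω) →
    ∀ k : ℝ, 0 < k →
    (∀ (r A : ℝ), 0 < r → r < 1 → 0 < A → mu (rh (r • closure Ω) A) univ = 1 →
      (∀ x, 0 ≤ rh (r • closure Ω) A x) → Measurable (rh (r • closure Ω) A) →
      (∀ x y : Eu κ, ∀ t : ℝ, 0 < t → t < 1 → rh (r • closure Ω) A x ^ (1 - t) *
        rh (r • closure Ω) A y ^ t ≤ rh (r • closure Ω) A ((1 - t) • x + t • y)) →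
      (∀ e : Eu κ ≃ₗᵢ[ℝ] Eu κ, (∀ x, e x ∈ Ω ↔ x ∈ Ω) →
        ∀ x, rh (r • closure Ω) A (e x) = rh (r • closure Ω) A x) →
      ∀ s : ℝ, 0 < s → (∀ θ : Eu κ,
        ∫⁻ x, ENNReal.ofReal (⟪θ, x⟫_ℝ ^ 2) ∂(mu (rh (r • closure Ω) A)) ≤
          ENNReal.ofReal (s * ‖θ‖ ^ 2)) →
      ∀ v : Eu κ → ℝ, ContDiff ℝ 1 v → (∀ x, |v x| ≤ 1) →
      ENNReal.ofReal ((∫ x, (v x - ∫ y, v y ∂(mu (rh (r • closure Ω) A))) ^ 2
        ∂(mu (rh (r • closure Ω) A))) ^ 2) ≤ ENNReal.ofReal (k * s) *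
        ∫⁻ x, ENNReal.ofReal (‖fderiv ℝ v x‖ ^ 2) ∂(mu (rh (r • closure Ω) A))) →
    ∃ a : Eu κ, a ≠ 0 ∧ ∀ E : Set (Eu κ), MeasurableSet E → E ⊆ Ω → volume E = volume Ω / 2 →
      sec Ω a ≤ ENNReal.ofReal (C * Real.sqrt k) * per E Ω := by
  obtain ⟨C, hC, h⟩ := hm
  refine ⟨C, hC, ?_⟩
  intro κ _ _ Ω hop hco hbd h0 hsym k hk hyp
  obtain ⟨a, ha, H⟩ := h κ Ω hop hco hbd h0 hsym k hk (by
    intro r A s hr hr1 hA hs hcov v hv hvb hvL
    obtain ⟨L, hL⟩ := hvL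
    have hDc : IsCompact (r • closure Ω) :=
      (Metric.isCompact_of_isClosed_isBounded isClosed_closure hbd.closure).smul r
    have hDv : Convex ℝ (r • closure Ω) := hco.closure.smul r
    have hDn : (r • closure Ω).Nonempty :=
      ⟨r • 0, Set.smul_mem_smul_set (subset_closure h0)⟩
    obtain ⟨-, h1, hcv⟩ := hpr κ (r • closure Ω) hDc hDv hDn A hA
    have hcov' : ∀ θ : Eu κ, ∫⁻ x, ENNReal.ofReal (⟪θ, x⟫_ℝ ^ 2) ∂(mu (rh (r • closure Ω) A)) ≤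
          ENNReal.ofReal (s * ‖θ‖ ^ 2) := by
      intro θ
      rw [lint_mu (r • closure Ω) hDc hDn A hA (fun x => ⟪θ, x⟫_ℝ ^ 2) (by fun_prop)
        (fun x => sq_nonneg _) (‖θ‖ ^ 2) (fun x => by
          rw [abs_of_nonneg (sq_nonneg _), ← sq_abs]
          have h2 := abs_real_inner_le_norm θ x
          have h3 : |⟪θ, x⟫_ℝ| ^ 2 ≤ (‖θ‖ * ‖x‖) ^ 2 := pow_le_pow_left₀ (abs_nonneg _) h2 2
          nlinarith [sq_nonneg ‖θ‖, mul_pow ‖θ‖ ‖x‖ 2])]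
      exact ENNReal.ofReal_le_ofReal (hcov θ)
    have h4 := hyp r A hr hr1 hA (prob _ hDc hDn A hA h1) (fun x => (rh_pos _ _ x).le)
      (rh_cont _ _).measurable (rh_logc _ A hcv)
      (fun e he x => by unfold rh; rw [Uu_iso e Ω he]) s hs hcov' v hv hvb
    rw [var_mu _ hDc hDn A hA h1 v hv.continuous hvb,
      lint_mu (r • closure Ω) hDc hDn A hA (fun x => ‖fderiv ℝ v x‖ ^ 2)
        ((hv.continuous_fderiv (by norm_num)).norm.pow 2)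
        (fun x => sq_nonneg _) (L ^ 2) (fun x => by
          rw [abs_of_nonneg (sq_nonneg _)]
          have h2 : ‖fderiv ℝ v x‖ ^ 2 ≤ L ^ 2 := pow_le_pow_left₀ (norm_nonneg _) (hL x) 2
          nlinarith [sq_nonneg L, sq_nonneg ‖x‖, mul_nonneg (sq_nonneg L) (sq_nonneg ‖x‖)]),
      ← ENNReal.ofReal_mul (by positivity)] at h4
    have h5 : 0 ≤ EU (Uu (r • closure Ω) A) (fun x => ‖fderiv ℝ v x‖ ^ 2) :=
      integral_nonneg fun x => mul_nonneg (sq_nonneg _) (Real.exp_pos _).le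
    exact (ENNReal.ofReal_le_ofReal_iff (by positivity)).1 h4)
  refine ⟨a, ha, fun E hE hEΩ hvol => ?_⟩
  by_cases hp : per E Ω = ⊤
  · rw [hp, ENNReal.mul_top]
    · exact le_top
    · rw [Ne, ENNReal.ofReal_eq_zero, not_le]
      positivity
  · refine (H E hE hEΩ hvol _ (perLe_toReal E Ω hp)).trans (le_of_eq ?_)
    rw [ENNReal.ofReal_mul (by positivity), ENNReal.ofReal_toReal hp]

end Pool.Agent.W695.KH
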