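import Pool.Agent.W695.KH.Wrap2
import Pool.Agent.H888R2.KT.G4
import Pool.Agent.H888R2.KT.C1
import Pool.Agent.H888R2.KT.C1b
import Pool.Agent.H888R2.KC.F2

set_option autoImplicit false

namespace Pool.Agent.W695.KH

open MeasureTheory Set Filter Topology
open scoped ENNReal InnerProductSpace Matrix
open Pool.Agent.H212R2.KLS (mu)
open Pool.Agent.H888R2.KC Pool.Agent.H888R2.KT

/-- weak Poincare inequality for conjugation invariant densities -/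
theorem conj_weak : ∃ C : ℝ, 0 < C ∧
    ∀ {𝕜 : Type} [RCLike 𝕜] {N q : ℕ} {ι : Type} [Fintype ι]
    {Φ : EuclideanSpace ℝ ι →ₗ[ℝ] Matrix (Fin N) (Fin N) 𝕜}, Fr Φ → 3 ≤ N → 1 ≤ q →
    ∀ ρ : EuclideanSpace ℝ (Fin q × ι) → ℝ, DT Φ ρ → mu ρ univ = 1 → ∀ s : ℝ, 0 < s →
    (∀ θ : EuclideanSpace ℝ (Fin q × ι), ∫⁻ x, ENNReal.ofReal (⟪θ, x⟫_ℝ ^ 2) ∂(mu ρ) ≤
      ENNReal.ofReal (s * ‖θ‖ ^ 2)) →
    ∀ f : EuclideanSpace ℝ (Fin q × ι) → ℝ, ContDiff ℝ 1 f → (∀ x, |f x| ≤ 1) →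
    ENNReal.ofReal ((∫ x, (f x - ∫ y, f y ∂(mu ρ)) ^ 2 ∂(mu ρ)) ^ 2) ≤
      ENNReal.ofReal (C * ((q : ℝ) ^ 2) ^ 2 * s) *
        ∫⁻ x, ENNReal.ofReal (‖fderiv ℝ f x‖ ^ 2) ∂(mu ρ) := by
  obtain ⟨C, hC, h⟩ := mainq_centered
  refine ⟨C, hC, ?_⟩
  intro 𝕜 _ N q ι _ Φ hΦ hN hq ρ hρ h1 s hs hcov f hf hb
  have : IsProbabilityMeasure (mu ρ) := ⟨h1⟩
  have hm : AEStronglyMeasurable f (mu ρ) := hf.continuous.aestronglyMeasurable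
  have hL : MemLp f 2 (mu ρ) := MemLp.of_bound hm 1 (Eventually.of_forall hb)
  have h3 := h hΦ hN hq ρ hρ h1 s hs (fun θ => evar_le (mu ρ) _
    (by fun_prop : Continuous fun x : EuclideanSpace ℝ (Fin q × ι) => ⟪θ, x⟫_ℝ).aestronglyMeasurable
    _ (hcov θ)) f hf hL
  have e : C * ((q : ℝ) ^ 2) ^ 2 * s = C * (q : ℝ) ^ 4 * s := by ring
  rw [e]
  exact le_trans (ENNReal.ofReal_le_ofReal (var_sq_le (mu ρ) f hm hb)) h3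

/-- the conjugations preserve an invariant set -/
theorem di_iff {𝕜 : Type} [RCLike 𝕜] {N q : ℕ} {ι : Type} [Fintype ι]
    {Φ : EuclideanSpace ℝ ι →ₗ[ℝ] Matrix (Fin N) (Fin N) 𝕜} (hΦ : Fr Φ)
    {Ω : Set (EuclideanSpace ℝ (Fin q × ι))}
    (hinv : ∀ U ∈ Matrix.unitaryGroup (Fin N) 𝕜, ∀ x ∈ Ω, di q (cj Φ U) x ∈ Ω)
    (U : Matrix (Fin N) (Fin N) 𝕜) (hU : U ∈ Matrix.unitaryGroup (Fin N) 𝕜)
    (x : EuclideanSpace ℝ (Fin q × ι)) : di q (cj Φ U) x ∈ Ω ↔ x ∈ Ω := by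
  constructor
  · intro hx
    have hU' : star U ∈ Matrix.unitaryGroup (Fin N) 𝕜 := Unitary.star_mem hU
    have h3 := hinv (star U) hU' _ hx
    have h4 : di q (cj Φ (star U)) (di q (cj Φ U) x) = x := by
      refine C1bx.ext_cp _ _ fun j => ?_
      rw [C1bx.cp_di, C1bx.cp_di, cj_cj hΦ, (Matrix.mem_unitaryGroup_iff').1 hU, cj_one hΦ]
    rw [h4] at h3
    exact h3
  · intro hx
    exact hinv U hU x hx

theorem di_dens {𝕜 : Type} [RCLike 𝕜] {N q : ℕ} {ι : Type} [Fintype ι]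
    {Φ : EuclideanSpace ℝ ι →ₗ[ℝ] Matrix (Fin N) (Fin N) 𝕜} (hΦ : Fr Φ)
    {Ω : Set (EuclideanSpace ℝ (Fin q × ι))}
    (hinv : ∀ U ∈ Matrix.unitaryGroup (Fin N) 𝕜, ∀ x ∈ Ω, di q (cj Φ U) x ∈ Ω)
    (ρ : EuclideanSpace ℝ (Fin q × ι) → ℝ) (h0 : ∀ x, 0 ≤ ρ x) (hm : Measurable ρ)
    (hlc : ∀ x y : EuclideanSpace ℝ (Fin q × ι), ∀ t : ℝ, 0 < t → t < 1 →
      ρ x ^ (1 - t) * ρ y ^ t ≤ ρ ((1 - t) • x + t • y))
    (hiso : ∀ e : EuclideanSpace ℝ (Fin q × ι) ≃ₗᵢ[ℝ] EuclideanSpace ℝ (Fin q × ι),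
      (∀ x, e x ∈ Ω ↔ x ∈ Ω) → ∀ x, ρ (e x) = ρ x) : DT Φ ρ := by
  refine ⟨h0, hm, hlc, fun U hU x => ?_⟩
  obtain ⟨e, he⟩ := di_iso (q := q) hΦ U hU
  rw [← he]
  exact hiso e (fun x => by rw [he]; exact di_iff hΦ hinv U hU x) x

/-- the Hermitian matrices are not the zero space -/
theorem nonempty_of_frame {𝕜 : Type} [RCLike 𝕜] {N : ℕ} {ι : Type} [Fintype ι]
    {Φ : EuclideanSpace ℝ ι →ₗ[ℝ] Matrix (Fin N) (Fin N) 𝕜} (hΦ : Fr Φ) (hN : 3 ≤ N) :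
    Nonempty ι := by
  by_contra hcon
  rw [not_nonempty_iff] at hcon
  obtain ⟨x, hx⟩ := hΦ.surj 1 (by simp)
  have hx0 : x = 0 := Subsingleton.elim _ _
  rw [hx0, map_zero] at hx
  have h1 := congrFun (congrFun hx ⟨0, by omega⟩) ⟨0, by omega⟩
  simp at h1

end Pool.Agent.W695.KH
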