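import Mathlib

set_option autoImplicit false

namespace Pool.Agent.W695.KH

open MeasureTheory Set Filter Topology
open scoped ENNReal

theorem evar_le {F : Type*} [MeasurableSpace F] (μ : Measure F) [IsProbabilityMeasure μ]
    (g : F → ℝ) (hg : AEStronglyMeasurable g μ) (B : ℝ≥0∞)
    (h : ∫⁻ x, ENNReal.ofReal (g x ^ 2) ∂μ ≤ B) : ProbabilityTheory.evariance g μ ≤ B := by
  rw [ProbabilityTheory.evariance_def' hg]
  refine tsub_le_self.trans (le_trans (le_of_eq (lintegral_congr fun x => ?_)) h)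
  rw [← sq_abs, ← Real.norm_eq_abs, ENNReal.ofReal_pow (norm_nonneg _), ofReal_norm]

theorem var_sq_le {F : Type*} [TopologicalSpace F] [MeasurableSpace F] [BorelSpace F]
    (μ : Measure F)
    [IsProbabilityMeasure μ] (v : F → ℝ) (hv : AEStronglyMeasurable v μ) (hb : ∀ x, |v x| ≤ 1) :
    (∫ x, (v x - ∫ y, v y ∂μ) ^ 2 ∂μ) ^ 2 ≤ ∫ x, (v x - ∫ y, v y ∂μ) ^ 2 ∂μ := by
  have h4 : 0 ≤ ∫ x, (v x - ∫ y, v y ∂μ) ^ 2 ∂μ := integral_nonneg fun x => sq_nonneg _
  have h5 : ∫ x, (v x - ∫ y, v y ∂μ) ^ 2 ∂μ ≤ 1 := by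
    rw [← ProbabilityTheory.variance_eq_integral hv.aemeasurable]
    refine (ProbabilityTheory.variance_le_expectation_sq hv).trans ?_
    refine (integral_mono_of_nonneg (Eventually.of_forall fun x => sq_nonneg _)
      (integrable_const (1 : ℝ)) (Eventually.of_forall fun x => ?_)).trans ?_
    · show v x ^ 2 ≤ 1
      rw [← sq_abs]
      exact pow_le_one₀ (abs_nonneg _) (hb x)
    · simp
  nlinarith

end Pool.Agent.W695.KH
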