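import Pool.Agent.W695.KH.Per
import Pool.Agent.W902.KH.Gauss
import Pool.Agent.W327.KH.Grad
import Pool.Agent.W597.KH.STEP
import Pool.Agent.W505.KH.Iter
import Pool.Agent.W505.KH.Tayl
import Pool.Agent.W500.KH.Gen
import Pool.Agent.W578.KH.Core
import Pool.Agent.W762.KH.Proj
import Pool.Agent.W12.KH.Lim
import Pool.Agent.W880.KH.Body
import Pool.Agent.W108.KH.Marg
import Pool.Agent.W880.KH.Oned
import Pool.Agent.W214.KH.Sec
import Pool.Agent.W932.KH.Main
import Pool.Agent.W800.KH.Perim
import Pool.Agent.W800.KH.Mink

/-!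
# From Poincare to Cheeger: assembly

Parts by helpers 12, 108, 214, 327, 500, 505, 578, 597, 762, 800, 880, 902, 932.
-/

set_option autoImplicit false

namespace Pool.Agent.W695.KH

theorem gauss : S_gauss := Pool.Agent.W902.KH.t_gauss

theorem grad : S_grad := Pool.Agent.W327.KH.t_grad gauss

theorem step : S_step := Pool.Agent.W597.KH.t_step gauss grad

theorem iter : S_iter := Pool.Agent.W505.KH.t_iter gauss grad step

theorem tayl : S_tayl := Pool.Agent.W505.KH.t_tayl

theorem gen : S_gen := Pool.Agent.W500.KH.t_gen gauss tayl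

theorem core : S_core := Pool.Agent.W578.KH.t_core gauss grad iter gen

theorem proj : S_proj := Pool.Agent.W762.KH.t_proj

theorem lim : S_lim := Pool.Agent.W12.KH.t_lim

theorem cov : S_cov := Pool.Agent.W12.KH.t_cov lim

theorem body : S_body := Pool.Agent.W880.KH.t_body proj lim core

theorem marg : S_marg := Pool.Agent.W108.KH.t_marg

theorem oned : S_oned := Pool.Agent.W880.KH.t_oned

theorem sec_bound : S_sec := (Pool.Agent.W214.KH.t_sec marg oned).1

theorem half : S_half := (Pool.Agent.W214.KH.t_sec marg oned).2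

theorem perim : S_perim := Pool.Agent.W800.KH.t_perim

theorem mink : S_mink := Pool.Agent.W800.KH.t_mink

theorem main : S_main := Pool.Agent.W932.KH.t_main body cov perim sec_bound

end Pool.Agent.W695.KH
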