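import Pool.Agent.Results.MP_6d896a_gt.OneSymmetric
import Pool.Agent.W695.KH.Wrap

/-!
# The weak Poincare inequality for 1-symmetric densities in the form used by `KH`
-/

set_option autoImplicit false

namespace Pool.Agent.W695.KH.OneSym

open MeasureTheory Set
open scoped ENNReal InnerProductSpace
open Pool.Agent.H212R2.KLS (mu)

/-- an isometry which maps `x` to `y` if `|y i| = |x (σ i)|` -/
theorem exists_iso {n : ℕ} (σ : Equiv.Perm (Fin n)) (x y : EuclideanSpace ℝ (Fin n))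
    (h : ∀ i, |y i| = |x (σ i)|) : ∃ e : EuclideanSpace ℝ (Fin n) ≃ₗᵢ[ℝ] EuclideanSpace ℝ (Fin n),
    e x = y ∧ ∀ z i, |e z i| = |z (σ i)| := by
  classical
  let e₁ : EuclideanSpace ℝ (Fin n) ≃ₗᵢ[ℝ] EuclideanSpace ℝ (Fin n) :=
    LinearIsometryEquiv.piLpCongrLeft 2 ℝ ℝ σ.symm
  let e₂ : EuclideanSpace ℝ (Fin n) ≃ₗᵢ[ℝ] EuclideanSpace ℝ (Fin n) :=
    LinearIsometryEquiv.piLpCongrRight 2 fun j =>
      if y j = x (σ j) then LinearIsometryEquiv.refl ℝ ℝ else LinearIsometryEquiv.neg ℝ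
  have h1 : ∀ z i, e₁ z i = z (σ i) := by
    intro z i
    simp [e₁, LinearIsometryEquiv.piLpCongrLeft_apply, Equiv.piCongrLeft'_apply]
  have h2 : ∀ z i, e₂ z i = if y i = x (σ i) then z i else - z i := by
    intro z i
    simp only [e₂]
    rw [LinearIsometryEquiv.piLpCongrRight_apply]
    show (if y i = x (σ i) then LinearIsometryEquiv.refl ℝ ℝ else LinearIsometryEquiv.neg ℝ :
      ℝ ≃ₗᵢ[ℝ] ℝ) (z i) = _
    split_ifs <;> simp
  refine ⟨e₁.trans e₂, ?_, ?_⟩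
  · ext i
    rw [LinearIsometryEquiv.trans_apply, h2, h1]
    split_ifs with hh
    · exact hh.symm
    · rcases abs_eq_abs.1 (h i) with h3 | h3
      · exact absurd h3 hh
      · rw [h3]
  · intro z i
    rw [LinearIsometryEquiv.trans_apply, h2, h1]
    split_ifs
    · rfl
    · rw [abs_neg]

/-- the weak Poincare inequality -/
theorem weak : ∃ C : ℝ, 0 < C ∧ ∀ n : ℕ, 1 ≤ n →
    ∀ ρ : EuclideanSpace ℝ (Fin n) → ℝ, (∀ x, 0 ≤ ρ x) → Measurable ρ →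
    (∀ x y, ∀ t : ℝ, 0 < t → t < 1 → ρ x ^ (1 - t) * ρ y ^ t ≤ ρ ((1 - t) • x + t • y)) →
    (∀ σ : Equiv.Perm (Fin n), ∀ x y : EuclideanSpace ℝ (Fin n),
      (∀ i, |y i| = |x (σ i)|) → ρ y = ρ x) →
    mu ρ univ = 1 → ∀ s : ℝ, 0 < s → (∀ θ : EuclideanSpace ℝ (Fin n),
      ∫⁻ x, ENNReal.ofReal (⟪θ, x⟫_ℝ ^ 2) ∂(mu ρ) ≤ ENNReal.ofReal (s * ‖θ‖ ^ 2)) →
    ∀ v : EuclideanSpace ℝ (Fin n) → ℝ, ContDiff ℝ 1 v → (∀ x, |v x| ≤ 1) →
    ENNReal.ofReal ((∫ x, (v x - ∫ y, v y ∂(mu ρ)) ^ 2 ∂(mu ρ)) ^ 2) ≤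
      ENNReal.ofReal (C * s) * ∫⁻ x, ENNReal.ofReal (‖fderiv ℝ v x‖ ^ 2) ∂(mu ρ) := by
  obtain ⟨C, hC, H⟩ := Pool.Agent.Results.MP_6d896a_gt.OneSymmetric.result
  refine ⟨C, hC, ?_⟩
  intro n hn ρ hnn hmeas hlc hinv hprob s hs hcov v hv hvb
  have hp : IsProbabilityMeasure (mu ρ) := ⟨hprob⟩
  have hvL : MemLp v 2 (mu ρ) :=
    MemLp.of_bound hv.continuous.aestronglyMeasurable 1 (ae_of_all _ fun x => by
      rw [Real.norm_eq_abs]
      exact hvb x)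
  have h1 := H n hn ρ ⟨hnn, hmeas, hlc, hinv⟩ (mu ρ) rfl hp s hs (fun i => by
    have h2 := hcov (EuclideanSpace.single i 1)
    simpa [EuclideanSpace.inner_single_left] using h2) v hv hvL
  rw [ProbabilityTheory.variance_eq_integral hvL.aestronglyMeasurable.aemeasurable] at h1
  refine le_trans (ENNReal.ofReal_le_ofReal ?_) h1
  have h3 : 0 ≤ ∫ x, (v x - ∫ y, v y ∂(mu ρ)) ^ 2 ∂(mu ρ) :=
    integral_nonneg fun x => sq_nonneg _
  have h4 : ∫ x, (v x - ∫ y, v y ∂(mu ρ)) ^ 2 ∂(mu ρ) ≤ 1 := by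
    rw [← ProbabilityTheory.variance_eq_integral hvL.aestronglyMeasurable.aemeasurable]
    refine (ProbabilityTheory.variance_le_expectation_sq hvL.aestronglyMeasurable).trans ?_
    have h6 : ∀ x, (v ^ 2) x ≤ 1 := fun x => by
      have := hvb x
      simp only [Pi.pow_apply]
      rw [← sq_abs]
      nlinarith [abs_nonneg (v x)]
    have h7 : ∀ x, 0 ≤ (v ^ 2) x := fun x => by
      simp only [Pi.pow_apply]
      exact sq_nonneg _
    have h5 : ∫ x, (v ^ 2) x ∂(mu ρ) ≤ ∫ _, (1 : ℝ) ∂(mu ρ) :=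
      integral_mono_of_nonneg (ae_of_all _ h7) (integrable_const _) (ae_of_all _ h6)
    rw [integral_const, probReal_univ, one_smul] at h5
    exact h5
  nlinarith

end Pool.Agent.W695.KH.OneSym
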