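import Pool.Agent.W695.KH.Chee2
import Pool.Agent.W695.KH.OneSym

/-!
# The KLS conjecture in Cheeger form for 1-symmetric convex bodies

Q1 with an absolute constant for all convex bodies in `ℝ^n` (all `n`) which are invariant under
permutations and sign changes of the coordinates (unit balls of 1-symmetric norms), for sets of measure
`1/2` (to which the infimum in the Cheeger constant may be restricted by a known theorem). Minkowski
boundary measure.

Method: the Poincare inequality of `Pool.Agent.Results.MP_6d896a_gt.OneSymmetric` for 1-symmetric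
log-concave measures and a formalised proof of the implication from Poincare to Cheeger inequalities
for log-concave measures by a discrete heat flow (modules `KH`).
-/

set_option autoImplicit false

namespace Pool.Agent.Results.MP_8d00da_gt.OneSymmetricCheeger

open MeasureTheory Set
open scoped ENNReal InnerProductSpace

/-- `ℝ^n` -/
abbrev Rn (n : ℕ) : Type := EuclideanSpace ℝ (Fin n)

/-- `K` contains with `x` all points `y` with `|y i| = |x (σ i)|` for all `i` and some permutation
`σ`: invariance under permutations and sign changes of the coordinates. -/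
def Invariant {n : ℕ} (K : Set (Rn n)) : Prop :=
  ∀ σ : Equiv.Perm (Fin n), ∀ x y : Rn n, (∀ i, |y i| = |x (σ i)|) → x ∈ K → y ∈ K

/-- convex body: compact, convex, with nonempty interior -/
structure ConvexBody {n : ℕ} (K : Set (Rn n)) : Prop where
  conv : Convex ℝ K
  comp : IsCompact K
  int : (interior K).Nonempty

/-- Minkowski (exterior) boundary measure `μ⁺(A)` -/
noncomputable def bdry {n : ℕ} (μ : Measure (Rn n)) (A : Set (Rn n)) : ℝ≥0∞ :=
  Filter.liminf (fun ε : ℝ => (μ (Metric.thickening ε A) - μ A) / ENNReal.ofReal ε)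
    (nhdsWithin 0 (Set.Ioi 0))

/-- the halfspace `⟪u, x⟫ ≤ b` -/
def halfspace {n : ℕ} (u : Rn n) (b : ℝ) : Set (Rn n) := {x | inner ℝ u x ≤ b}

/-- the uniform probability measure on `K` -/
noncomputable def unif {n : ℕ} (K : Set (Rn n)) : Measure (Rn n) :=
  (volume K)⁻¹ • volume.restrict K

/-- the inequality of Kannan, Lovasz and Simonovits with constant `c` for the uniform measure `μ` on
`K` and sets of measure `1/2`: if `t min(μ H, 1 - μ H) ≤ μ⁺(H)` for all halfspaces `H` then
`c t / 2 ≤ μ⁺(A)` for all measurable `A` with `μ A = 1/2`. -/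
def KLSBoundHalf {n : ℕ} (c : ℝ) (K : Set (Rn n)) : Prop :=
  ∀ t : ℝ≥0∞, (∀ (u : Rn n) (b : ℝ), u ≠ 0 →
      t * min (unif K (halfspace u b)) (1 - unif K (halfspace u b)) ≤
        bdry (unif K) (halfspace u b)) →
    ∀ A : Set (Rn n), MeasurableSet A → unif K A = 1 / 2 →
      ENNReal.ofReal c * t * (1 / 2) ≤ bdry (unif K) A

/-- an invariant set is symmetric -/
theorem symm {n : ℕ} {K : Set (Rn n)} (h : Invariant K) (x : Rn n) (hx : x ∈ K) : -x ∈ K :=
  h 1 x (-x) (fun i => by simp) hx

/-- **KLS (Cheeger form) for 1-symmetric convex bodies.** There is an absolute constant `c > 0` such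
that for all `n ≥ 1` and every convex body `K` in `ℝ^n` invariant under permutations and sign changes
of the coordinates: if `t min(μ H, 1 - μ H) ≤ μ⁺(H)` for all halfspaces `H`, then `μ⁺(A) ≥ c t / 2`
for all measurable `A` with `μ A = 1/2`, `μ` uniform on `K`. -/
theorem result : ∃ c : ℝ, 0 < c ∧ ∀ n : ℕ, 1 ≤ n → ∀ K : Set (Rn n), ConvexBody K → Invariant K →
    KLSBoundHalf c K := by
  obtain ⟨c, hc, H⟩ := Pool.Agent.W695.KH.cheeger_half
  obtain ⟨C₂, hC₂, h₂⟩ := Pool.Agent.W695.KH.OneSym.weak
  refine ⟨c / Real.sqrt C₂, by positivity, ?_⟩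
  intro n hn K hK hinv
  have hne' : Nonempty (Fin n) := ⟨⟨0, hn⟩⟩
  have key := H (Fin n) K hK.conv hK.comp hK.int (symm hinv) C₂ hC₂ (by
      intro A hA hprob hnn hmeas hlc hiso s hs hcov v hv hvb
      refine h₂ n hn _ hnn hmeas hlc (fun σ x y hxy => ?_) hprob s hs hcov v hv hvb
      obtain ⟨e, he, hee⟩ := Pool.Agent.W695.KH.OneSym.exists_iso σ x y hxy
      rw [← he]
      refine hiso e (fun z => ?_) x
      constructor
      · intro hz
        refine hinv σ⁻¹ (e z) z (fun i => ?_) hz
        rw [hee]
        simp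
      · intro hz
        exact hinv σ z (e z) (hee z) hz)
  intro t ht A _ hA2
  have h1 : ENNReal.ofReal (c / Real.sqrt C₂) * t *
      min (unif K A) (1 - unif K A) ≤ bdry (unif K) A := key (unif K) rfl t ht A hA2
  have h2 : min (1 / 2 : ℝ≥0∞) (1 - 1 / 2) = 1 / 2 := by
    have : (1 : ℝ≥0∞) - 1 / 2 = 1 / 2 := by
      rw [one_div]
      exact ENNReal.one_sub_inv_two
    rw [this, min_self]
  have h3 : min (unif K A) (1 - unif K A) = 1 / 2 := by rw [hA2, h2]
  rw [h3] at h1
  exact h1

end Pool.Agent.Results.MP_8d00da_gt.OneSymmetricCheeger
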