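import Pool.Agent.W695.KH.Final
import Pool.Agent.W695.KH.Per
import Pool.Agent.W695.KH.OneSym

/-!
# The hyperplane conjecture of Kannan, Lovasz and Simonovits for 1-symmetric convex bodies

For all open bounded convex sets in `ℝ^n` (all `n`) which are invariant under permutations and sign
changes of the coordinates (unit balls of 1-symmetric norms) the best central hyperplane cut is at most
an absolute constant times the perimeter of any set of half the volume.

Method: the Poincare inequality of `Pool.Agent.Results.MP_6d896a_gt.OneSymmetric` for 1-symmetric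
log-concave measures, a formalised proof of the implication from Poincare to Cheeger inequalities by a
discrete heat flow (modules `KH`), the De Giorgi perimeter by mollification, and the bound for the
central section of an even log-concave marginal.
-/

set_option autoImplicit false

namespace Pool.Agent.Results.MP_dc1397_gt.OneSymmetric

open MeasureTheory Set
open scoped ENNReal InnerProductSpace

/-- `ℝ^n` -/
abbrev Rn (n : ℕ) : Type := EuclideanSpace ℝ (Fin n)

/-- `Ω` contains with `x` all points `y` with `|y i| = |x (σ i)|` for all `i` and some permutation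
`σ`: invariance under permutations and sign changes of the coordinates. -/
def Invariant {n : ℕ} (Ω : Set (Rn n)) : Prop :=
  ∀ σ : Equiv.Perm (Fin n), ∀ x y : Rn n, (∀ i, |y i| = |x (σ i)|) → x ∈ Ω → y ∈ Ω

/-- the Lebesgue measure of a Euclidean space -/
noncomputable def lebesgue (F : Type) [NormedAddCommGroup F] [InnerProductSpace ℝ F]
    [FiniteDimensional ℝ F] [MeasurableSpace F] [BorelSpace F] : Measure F := volume

/-- the Lebesgue measure (of the Euclidean space `W`) of the section `Ω ∩ W` by a subspace `W` -/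
noncomputable def areaIn {F : Type} [NormedAddCommGroup F] [InnerProductSpace ℝ F]
    [FiniteDimensional ℝ F] [MeasurableSpace F] [BorelSpace F] (W : Submodule ℝ F) (Ω : Set F) :
    ℝ≥0∞ := lebesgue W {y : W | (y : F) ∈ Ω}

section defs

variable {κ : Type} [Fintype κ]

/-- an open, convex, bounded, nonempty set -/
structure Domain (Ω : Set (EuclideanSpace ℝ κ)) : Prop where
  op : IsOpen Ω
  conv : Convex ℝ Ω
  bdd : Bornology.IsBounded Ω
  ne : Ω.Nonempty

open Classical in
/-- divergence of a vector field on `ℝ^κ` -/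
noncomputable def divergence (X : EuclideanSpace ℝ κ → EuclideanSpace ℝ κ)
    (x : EuclideanSpace ℝ κ) : ℝ :=
  ∑ i, fderiv ℝ X x (EuclideanSpace.single i 1) i

/-- `C¹` vector fields with compact support in `Ω` and `‖X‖ ≤ 1` -/
structure Test (Ω : Set (EuclideanSpace ℝ κ)) (X : EuclideanSpace ℝ κ → EuclideanSpace ℝ κ) :
    Prop where
  diff : ContDiff ℝ 1 X
  comp : HasCompactSupport X
  sub : tsupport X ⊆ Ω
  le : ∀ x, ‖X x‖ ≤ 1

/-- the (De Giorgi) perimeter `P(E; Ω)` of `E` relative to the open set `Ω` -/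
noncomputable def perimeter (E Ω : Set (EuclideanSpace ℝ κ)) : ℝ≥0∞ :=
  ⨆ (X : EuclideanSpace ℝ κ → EuclideanSpace ℝ κ) (_ : Test Ω X),
    ENNReal.ofReal (∫ x in E, divergence X x)

/-- the area (Lebesgue measure in the hyperplane `a^⊥`) of the central section of `Ω` by `a^⊥` -/
noncomputable def sectionArea (Ω : Set (EuclideanSpace ℝ κ)) (a : EuclideanSpace ℝ κ) : ℝ≥0∞ :=
  areaIn (Submodule.span ℝ {a})ᗮ Ω

/-- some central hyperplane section has area at most `K P(E; Ω)` for every measurable `E ⊆ Ω` with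
`|E| = |Ω| / 2` -/
def HyperplaneBound (K : ℝ) (Ω : Set (EuclideanSpace ℝ κ)) : Prop :=
  ∃ a : EuclideanSpace ℝ κ, a ≠ 0 ∧ ∀ E : Set (EuclideanSpace ℝ κ), MeasurableSet E → E ⊆ Ω →
    volume E = volume Ω / 2 → sectionArea Ω a ≤ ENNReal.ofReal K * perimeter E Ω

/-- the perimeter is the one used in the proof -/
theorem perimeter_eq (E Ω : Set (EuclideanSpace ℝ κ)) :
    Pool.Agent.W695.KH.per E Ω = perimeter E Ω := by
  unfold perimeter Pool.Agent.W695.KH.per
  refine iSup_congr fun X => ?_
  refine iSup_congr_Prop ⟨fun h => ⟨h.1, h.2.1, h.2.2.1, h.2.2.2⟩,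
    fun h => ⟨h.diff, h.comp, h.sub, h.le⟩⟩ fun _ => rfl

end defs

/-- an invariant set is symmetric -/
theorem symm {n : ℕ} {Ω : Set (Rn n)} (h : Invariant Ω) (x : Rn n) (hx : x ∈ Ω) : -x ∈ Ω :=
  h 1 x (-x) (fun i => by simp) hx

/-- **The hyperplane conjecture for 1-symmetric convex bodies.** There is an absolute constant `C`
such that for all `n ≥ 1` and every nonempty open bounded convex set `Ω` in `ℝ^n` invariant under
permutations and sign changes of the coordinates (`Ω` is then symmetric, `Ω = -Ω`) there is a central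
hyperplane `a^⊥` such that for every measurable `E ⊆ Ω` with `|E| = |Ω| / 2`
`H_{n-1}(Ω ∩ a^⊥) ≤ C P(E; Ω)`. -/
theorem result : ∃ C : ℝ, 0 < C ∧ ∀ n : ℕ, 1 ≤ n → ∀ Ω : Set (Rn n), Domain Ω → Invariant Ω →
    HyperplaneBound C Ω := by
  obtain ⟨C, hC, H⟩ := Pool.Agent.W695.KH.final Pool.Agent.W695.KH.main Pool.Agent.W695.KH.proj
  obtain ⟨C₂, hC₂, h₂⟩ := Pool.Agent.W695.KH.OneSym.weak
  refine ⟨C * Real.sqrt C₂, by positivity, ?_⟩
  intro n hn Ω hΩ hinv
  obtain ⟨hop, hco, hbd, hne⟩ := hΩ
  have hne' : Nonempty (Fin n) := ⟨⟨0, hn⟩⟩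
  have h0 : (0 : Rn n) ∈ Ω := by
    obtain ⟨x, hx⟩ := hne
    have h1 := hco hx (symm hinv x hx) (by norm_num : (0 : ℝ) ≤ 1 / 2)
      (by norm_num : (0 : ℝ) ≤ 1 / 2) (by norm_num)
    simpa using h1
  obtain ⟨a, ha, h⟩ := H (Fin n) Ω hop hco hbd h0 (symm hinv) C₂ hC₂ (by
      intro r A hr hr1 hA hprob hnn hmeas hlc hiso s hs hcov v hv hvb
      refine h₂ n hn _ hnn hmeas hlc (fun σ x y hxy => ?_) hprob s hs hcov v hv hvb
      obtain ⟨e, he, hee⟩ := Pool.Agent.W695.KH.OneSym.exists_iso σ x y hxy
      rw [← he]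
      refine hiso e (fun z => ?_) x
      constructor
      · intro hz
        refine hinv σ⁻¹ (e z) z (fun i => ?_) hz
        rw [hee]
        simp
      · intro hz
        exact hinv σ z (e z) (hee z) hz)
  refine ⟨a, ha, fun E hE hEΩ hvol => ?_⟩
  have h4 := h E hE hEΩ hvol
  rw [perimeter_eq] at h4
  exact h4

end Pool.Agent.Results.MP_dc1397_gt.OneSymmetric
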